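import Mathlib
import Pool.Agent.H.MP_8476ae_an.A

namespace Pool.Agent.Results.MP_8476ae_an.No

universe u

theorem result (C : ℝ) : ∃ p : ℝ, 1 ≤ p ∧ ∀ D : ℝ, 1 ≤ D → D ≤ 5 / 4 → ∀ n₀ : ℕ,
    ∃ (M : Type) (_ : Fintype M) (_ : MetricSpace M), n₀ ≤ Fintype.card M ∧
      ∀ (X : Type u) [NormedAddCommGroup X] [NormedSpace ℝ X] [FiniteDimensional ℝ X],
        (Module.finrank ℝ X : ℝ) ≤ (Fintype.card M : ℝ) ^ (C / (p * D)) →
        ¬ ∃ f : M → lp (fun _ : ℕ => X) (ENNReal.ofReal p),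
          ∀ x y, dist x y ≤ ‖f x - f y‖ ∧ ‖f x - f y‖ ≤ D * dist x y :=
  Pool.Agent.H.MP_8476ae_an.main C

end Pool.Agent.Results.MP_8476ae_an.No
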